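import Pool.Agent.Helper24.MA.Defs

/-!
# Reduction modulo a valuation ring, Fourier relations, Hom spaces (definitions)
-/

open TensorProduct

namespace Pool.Agent.Helper24.MA

/-- a matrix form with entries in `O` of a complex representation -/
structure Red (O : ValuationSubring ℂ) {X V : Type} [Group X] [AddCommGroup V] [Module ℂ V]
    (ρ : Representation ℂ X V) where
  /-- the dimension -/
  n : ℕ
  /-- the basis -/
  b : Module.Basis (Fin n) ℂ V
  /-- the matrices -/
  s : X →* Matrix (Fin n) (Fin n) O
  hs : ∀ x, LinearMap.toMatrix b b (ρ x) = (s x).map (fun a => (a : ℂ))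

section

variable {O : ValuationSubring ℂ} {X Y V : Type} [Group X] [Group Y] [AddCommGroup V] [Module ℂ V]
  {ρ : Representation ℂ X V}

/-- the reduction, a representation over the residue field -/
noncomputable def Red.bar (R : Red O ρ) :
    Representation (IsLocalRing.ResidueField O) X (Fin R.n → IsLocalRing.ResidueField O) :=
  (Matrix.toLinAlgEquiv' (R := IsLocalRing.ResidueField O) (n := Fin R.n)).toMulEquiv.toMonoidHom.comp
    (((IsLocalRing.residue O).mapMatrix (m := Fin R.n)).toMonoidHom.comp R.s)

/-- restriction along a homomorphism -/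
noncomputable def Red.comp (R : Red O ρ) (f : Y →* X) : Red O (ρ.comp f) where
  n := R.n
  b := R.b
  s := R.s.comp f
  hs y := R.hs (f y)

end

/-- the Fourier relations of a family of representations of a finite group over `k`: they hold if
the `σ i` are absolutely irreducible, pairwise not isomorphic and `|M| ≠ 0` in `k` -/
structure Fou {k M I : Type} [Field k] [Group M] [Fintype M] {V : I → Type}
    [∀ i, AddCommGroup (V i)] [∀ i, Module k (V i)] (σ : ∀ i, Representation k M (V i)) :
    Prop where
  dim : ∀ i, (Module.finrank k (V i) : k) ≠ 0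
  same : ∀ i (A : V i →ₗ[k] V i), ∑ m, LinearMap.trace k (V i) (A ∘ₗ σ i m) • σ i m⁻¹ =
    ((Fintype.card M : k) / (Module.finrank k (V i) : k)) • A
  diff : ∀ i j, i ≠ j → ∀ A : V i →ₗ[k] V i,
    ∑ m, LinearMap.trace k (V i) (A ∘ₗ σ i m) • σ j m⁻¹ = 0

/-- the `C`-homomorphisms from `W` to `V` -/
def HomC {k C V W : Type} [Field k] [Group C] [AddCommGroup V] [Module k V] [AddCommGroup W]
    [Module k W] (σ : Representation k C V) (τ : Representation k C W) :
    Submodule k (W →ₗ[k] V) where
  carrier := {f | ∀ c, σ c ∘ₗ f = f ∘ₗ τ c}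
  add_mem' {f g} hf hg c := by rw [LinearMap.comp_add, LinearMap.add_comp, hf c, hg c]
  zero_mem' c := by rw [LinearMap.comp_zero, LinearMap.zero_comp]
  smul_mem' a f hf c := by rw [LinearMap.comp_smul, LinearMap.smul_comp, hf c]

/-- a group acting on the space of `C`-homomorphisms by `f ↦ S y ∘ f ∘ T y⁻¹` -/
noncomputable def homRep {k C Y V W : Type} [Field k] [Group C] [Group Y] [AddCommGroup V]
    [Module k V] [AddCommGroup W] [Module k W] (σ : Representation k C V)
    (τ : Representation k C W) (S : Representation k Y V) (T : Representation k Y W)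
    (h : ∀ y, ∀ f ∈ HomC σ τ, S y ∘ₗ f ∘ₗ T y⁻¹ ∈ HomC σ τ) :
    Representation k Y (HomC σ τ) where
  toFun y :=
    { toFun := fun f => ⟨S y ∘ₗ f.1 ∘ₗ T y⁻¹, h y f.1 f.2⟩
      map_add' := fun f g => by
        apply Subtype.ext
        simp only [Submodule.coe_add, LinearMap.add_comp, LinearMap.comp_add]
      map_smul' := fun a f => by
        apply Subtype.ext
        simp only [Submodule.coe_smul, LinearMap.smul_comp, LinearMap.comp_smul, RingHom.id_apply] }
  map_one' := by
    ext f w
    simp
  map_mul' x y := by
    ext f w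
    simp

/-- if the `X x` commute with the `σ c` then they act on the `C`-homomorphisms -/
lemma homE_ok {k C E V W : Type} [Field k] [Group C] [Group E] [AddCommGroup V]
    [Module k V] [AddCommGroup W] [Module k W] (σ : Representation k C V)
    (τ : Representation k C W) (X : Representation k E V)
    (hX : ∀ x c, X x ∘ₗ σ c = σ c ∘ₗ X x) :
    ∀ y, ∀ f ∈ HomC σ τ, X y ∘ₗ f ∘ₗ (1 : Representation k E W) y⁻¹ ∈ HomC σ τ := by
  intro y f hf c
  have h1 : f ∘ₗ (1 : Representation k E W) y⁻¹ = f := by
    ext w; simp
  rw [h1, ← LinearMap.comp_assoc, ← hX, LinearMap.comp_assoc, hf c, ← LinearMap.comp_assoc]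

/-- the action of `E` on the `C`-homomorphisms -/
noncomputable def homE {k C E V W : Type} [Field k] [Group C] [Group E] [AddCommGroup V]
    [Module k V] [AddCommGroup W] [Module k W] (σ : Representation k C V)
    (τ : Representation k C W) (X : Representation k E V)
    (hX : ∀ x c, X x ∘ₗ σ c = σ c ∘ₗ X x) : Representation k E (HomC σ τ) :=
  homRep σ τ X 1 (homE_ok σ τ X hX)

end Pool.Agent.Helper24.MA
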