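import Mathlib

/-!
# Generic operators of elementary abelian groups in characteristic p

MP_5ecade_al, case A (section 8 of the blackboard): definitions.
`E` is a finite elementary abelian `p`-group, `k` a field of characteristic `p`,
`ρ` a representation of `E` on `V`; `K = k(t_x : x ∈ E)` and `u = ∑ t_x (ρ x - 1)` acts on
`K ⊗ V` with `u ^ p = 0`; `gr p ρ` is the number of its Jordan blocks of length less than `p`.
-/

open TensorProduct

namespace Pool.Agent.Helper24.MA

/-- for `N ^ p = 0`: the number of Jordan blocks of length less than `p` -/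
noncomputable def hrk {K U : Type} [Field K] [AddCommGroup U] [Module K U] (p : ℕ)
    (N : U →ₗ[K] U) : ℕ :=
  Module.finrank K (LinearMap.ker N) - Module.finrank K (LinearMap.range (N ^ (p - 1)))

/-- elementary abelian of exponent `p` -/
structure ElAb (p : ℕ) (E : Type) [Group E] : Prop where
  comm : ∀ x y : E, x * y = y * x
  pow : ∀ x : E, x ^ p = 1

/-- the operator `∑ c x (A x)` over an extension field `F` of `k` -/
noncomputable def famOp {k σ T : Type} (F : Type) [Field k] [Field F] [Algebra k F]
    [Fintype σ] [AddCommGroup T] [Module k T] (A : σ → (T →ₗ[k] T)) (c : σ → F) :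
    F ⊗[k] T →ₗ[F] F ⊗[k] T :=
  ∑ x : σ, c x • (A x).baseChange F

/-- the operator `∑ c x (ρ x - 1)` over an extension field `F` of `k` -/
noncomputable def spOp {k E V : Type} (F : Type) [Field k] [Field F] [Algebra k F] [Group E]
    [Fintype E] [AddCommGroup V] [Module k V] (ρ : Representation k E V) (c : E → F) :
    F ⊗[k] V →ₗ[F] F ⊗[k] V :=
  ∑ x : E, c x • (ρ x - 1).baseChange F

/-- the field of rational functions in variables indexed by `E` -/
abbrev Kf (k E : Type) [Field k] : Type := FractionRing (MvPolynomial E k)

/-- the variables -/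
noncomputable def tv (k : Type) {E : Type} [Field k] (x : E) : Kf k E :=
  algebraMap (MvPolynomial E k) (Kf k E) (MvPolynomial.X x)

/-- the operator `f ↦ N f - f N` -/
noncomputable def adOp {K U : Type} [Field K] [AddCommGroup U] [Module K U] (N : U →ₗ[K] U) :
    (U →ₗ[K] U) →ₗ[K] (U →ₗ[K] U) where
  toFun f := N ∘ₗ f - f ∘ₗ N
  map_add' f g := by rw [LinearMap.comp_add, LinearMap.add_comp]; abel
  map_smul' c f := by
    rw [LinearMap.comp_smul, LinearMap.smul_comp, ← smul_sub]; rfl

/-- the permutation representation on functions on a finite `E`-set -/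
noncomputable def permRep (k E Ω : Type) [Field k] [Group E] [MulAction E Ω] :
    Representation k E (Ω → k) where
  toFun x := LinearMap.funLeft k k (fun ω => x⁻¹ • ω)
  map_one' := by
    ext f ω
    simp [LinearMap.funLeft_apply]
  map_mul' x y := by
    ext f ω
    simp [LinearMap.funLeft_apply, mul_smul]

/-- number of Jordan blocks of length less than `p` of the generic operator of `ρ` -/
noncomputable def gr (p : ℕ) {k E V : Type} [Field k] [Group E] [Fintype E] [AddCommGroup V]
    [Module k V] (ρ : Representation k E V) : ℕ :=
  hrk p (spOp (Kf k E) ρ (tv k))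

end Pool.Agent.Helper24.MA
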